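import Mathlib
import Pool.Agent.MP_88803c_co.Basic

open Cardinal
open Pool.Agent.MP_88803c_co

universe u

namespace Pool.Agent.Results.MP_88803c_co.IdealAntichains

/-- For every cardinal `μ` and every poset `P` (of any size) without antichains of cardinality `μ`,
the poset of ideals of `P` has no antichain of cardinality `i(μ) = (2 ^ (2 ^< max μ ℵ₀))⁺`. -/
theorem result (μ : Cardinal.{u}) :
    ∀ (P : Type u) [PartialOrder P], NoAntichain μ P →
      NoAntichain (Order.succ (2 ^ (2 ^< (max μ ℵ₀)))) (Order.Ideal P) :=
  fun P _ hP => bound' μ P hP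

end Pool.Agent.Results.MP_88803c_co.IdealAntichains
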